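import Pool.Agent.TH703.HU.Stm

/-! Elementary properties of the weight. -/

set_option autoImplicit false

open MeasureTheory Set Metric Filter Topology
open scoped ENNReal Real

namespace Pool.Agent.TH626.HU

open Pool.Agent.TH304.MI Pool.Agent.TH703.HU

namespace C0

/-- the density -/
noncomputable def h (m : ℕ) (u : ℝ) : ℝ := (1 - 4 * u ^ 2) ^ m

/-- its primitive -/
noncomputable def H (m : ℕ) (t : ℝ) : ℝ := ∫ u in (0 : ℝ)..t, h m u

theorem h_cont (m : ℕ) : Continuous (h m) := by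
  unfold h
  fun_prop

theorem H_deriv (m : ℕ) (t : ℝ) : HasDerivAt (H m) (h m t) t :=
  (h_cont m).integral_hasStrictDerivAt 0 t |>.hasDerivAt

theorem H_cont (m : ℕ) : Continuous (H m) :=
  continuous_iff_continuousAt.2 fun t => (H_deriv m t).continuousAt

theorem int_eq (m : ℕ) (a b : ℝ) : ∫ u in a..b, (1 - 4 * u ^ 2) ^ m = H m b - H m a := by
  unfold H
  have i1 : ∀ a b : ℝ, IntervalIntegrable (h m) volume a b := fun a b =>
    (h_cont m).intervalIntegrable a b
  rw [intervalIntegral.integral_interval_sub_left (i1 _ _) (i1 _ _)]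
  rfl

theorem h_nonneg (m : ℕ) {u : ℝ} (h1 : -(1 / 2) ≤ u) (h2 : u ≤ 1 / 2) : 0 ≤ h m u := by
  unfold h
  apply pow_nonneg
  nlinarith

theorem h_pos (m : ℕ) {u : ℝ} (h1 : -(1 / 2) < u) (h2 : u < 1 / 2) : 0 < h m u := by
  unfold h
  apply pow_pos
  nlinarith

theorem h_end (m : ℕ) (hm : 1 ≤ m) : h m (-(1 / 2)) = 0 ∧ h m (1 / 2) = 0 := by
  unfold h
  constructor
  · rw [show (1 : ℝ) - 4 * (-(1 / 2)) ^ 2 = 0 by norm_num, zero_pow (by omega)]
  · rw [show (1 : ℝ) - 4 * (1 / 2) ^ 2 = 0 by norm_num, zero_pow (by omega)]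

theorem H_strict (m : ℕ) : StrictMonoOn (H m) (Icc (-(1 / 2)) (1 / 2)) := by
  refine strictMonoOn_of_deriv_pos (convex_Icc _ _) (H_cont m).continuousOn ?_
  intro t ht
  rw [interior_Icc] at ht
  rw [(H_deriv m t).deriv]
  exact h_pos m ht.1 ht.2

theorem NN_eq (m : ℕ) : NN m = H m (1 / 2) - H m (-(1 / 2)) := int_eq m _ _

theorem NN_pos (m : ℕ) : 0 < NN m := by
  rw [NN_eq, sub_pos]
  exact H_strict m ⟨le_rfl, by norm_num⟩ ⟨by norm_num, le_rfl⟩ (by norm_num)

theorem H_odd (m : ℕ) (t : ℝ) : H m (-t) = -H m t := by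
  unfold H
  have h1 : ∫ u in (0 : ℝ)..t, h m u = ∫ u in (0 : ℝ)..t, h m (-u) := by
    refine intervalIntegral.integral_congr fun u _ => ?_
    unfold h
    show _ = (1 - 4 * (-u) ^ 2) ^ m
    rw [neg_sq]
  rw [h1, intervalIntegral.integral_comp_neg, neg_zero, intervalIntegral.integral_symm]

theorem wt_eq (m : ℕ) (x : ℂ) : wt m x =
    (H m (max (|x.re| - 1 / 2) (1 / 2 - |x.im|)) - H m (|x.re| - 1 / 2)) / NN m := by
  unfold wt
  rw [int_eq]

theorem wt_in (m : ℕ) {x : ℂ} (hx : x ∈ DD) : wt m x =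
    (H m (1 / 2 - |x.im|) - H m (|x.re| - 1 / 2)) / NN m := by
  have h1 : |x.re| + |x.im| < 1 := hx
  rw [wt_eq, max_eq_right (by linarith)]

theorem wt_out (m : ℕ) {x : ℂ} (hx : x ∉ DD) : wt m x = 0 := by
  have h1 : ¬ |x.re| + |x.im| < 1 := hx
  rw [wt_eq, max_eq_left (by linarith), sub_self, zero_div]

theorem wt_pos (m : ℕ) {x : ℂ} (hx : x ∈ DD) : 0 < wt m x := by
  have h1 : |x.re| + |x.im| < 1 := hx
  rw [wt_in m hx]
  refine div_pos ?_ (NN_pos m)
  rw [sub_pos]
  have := abs_nonneg x.re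
  have := abs_nonneg x.im
  exact H_strict m ⟨by linarith, by linarith⟩ ⟨by linarith, by linarith⟩ (by linarith)

theorem wt_nonneg (m : ℕ) (x : ℂ) : 0 ≤ wt m x := by
  by_cases hx : x ∈ DD
  · exact (wt_pos m hx).le
  · rw [wt_out m hx]

theorem wt_le (m : ℕ) (x : ℂ) : wt m x ≤ 1 := by
  by_cases hx : x ∈ DD
  · have h1 : |x.re| + |x.im| < 1 := hx
    have a1 := abs_nonneg x.re
    have a2 := abs_nonneg x.im
    rw [wt_in m hx, div_le_one (NN_pos m), NN_eq]
    have b1 := (H_strict m).monotoneOn (a := 1 / 2 - |x.im|) (b := 1 / 2)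
      ⟨by linarith, by linarith⟩ ⟨by linarith, by linarith⟩ (by linarith)
    have b2 := (H_strict m).monotoneOn (a := -(1 / 2)) (b := |x.re| - 1 / 2)
      ⟨by linarith, by linarith⟩ ⟨by linarith, by linarith⟩ (by linarith)
    linarith
  · rw [wt_out m hx]
    exact zero_le_one

theorem wt_cont (m : ℕ) : Continuous (wt m) := by
  have h1 : wt m = fun x : ℂ =>
      (H m (max (|x.re| - 1 / 2) (1 / 2 - |x.im|)) - H m (|x.re| - 1 / 2)) / NN m :=
    funext (wt_eq m)
  rw [h1]
  have c1 := Complex.continuous_re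
  have c2 := Complex.continuous_im
  have c3 := H_cont m
  fun_prop

/-- even extensions -/
theorem even_c1 (f f' : ℝ → ℝ) (hf : ∀ t, HasDerivAt f (f' t) t) (hc : Continuous f')
    (h0 : f' 0 = 0) : ContDiff ℝ 1 (fun a : ℝ => f |a|) := by
  have hd : ∀ a : ℝ, HasDerivAt (fun a : ℝ => f |a|) (if 0 ≤ a then f' a else -f' (-a)) a := by
    intro a
    rcases lt_trichotomy a 0 with ha | ha | ha
    · rw [if_neg (not_le.2 ha)]
      have h1 : HasDerivAt (fun a : ℝ => f (-a)) (f' (-a) * -1) a :=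
        (hf (-a)).comp a (hasDerivAt_neg a)
      have h2 : (fun a : ℝ => f |a|) =ᶠ[𝓝 a] fun a => f (-a) := by
        filter_upwards [gt_mem_nhds ha] with b hb
        rw [abs_of_neg hb]
      rw [mul_neg_one] at h1
      exact h1.congr_of_eventuallyEq h2
    · subst ha
      rw [if_pos le_rfl, h0]
      have h1 := hf 0
      rw [h0, hasDerivAt_iff_isLittleO] at h1
      rw [hasDerivAt_iff_isLittleO]
      have ht : Tendsto (fun a : ℝ => |a|) (𝓝 0) (𝓝 0) := by
        have := (continuous_abs (G := ℝ)).tendsto 0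
        rwa [abs_zero] at this
      have h2 := h1.comp_tendsto ht
      have h3 : (fun x' : ℝ => f |x'| - f |0| - (x' - 0) • (0 : ℝ)) =o[𝓝 0] fun x' => x' - 0 := by
        refine (h2.congr_left ?_).trans_isBigO ?_
        · intro x'
          simp
        · refine Asymptotics.IsBigO.of_bound 1 (Eventually.of_forall fun x' => ?_)
          simp
      exact h3
    · rw [if_pos ha.le]
      have h2 : (fun a : ℝ => f |a|) =ᶠ[𝓝 a] fun a => f a := by
        filter_upwards [lt_mem_nhds ha] with b hb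
        rw [abs_of_pos hb]
      exact (hf a).congr_of_eventuallyEq h2
  rw [contDiff_one_iff_deriv]
  refine ⟨fun a => (hd a).differentiableAt, ?_⟩
  have h1 : deriv (fun a : ℝ => f |a|) = fun a => if 0 ≤ a then f' a else -f' (-a) :=
    funext fun a => (hd a).deriv
  rw [h1]
  refine Continuous.if_le hc (hc.comp continuous_neg).neg continuous_const continuous_id ?_
  intro a ha
  rw [← ha, neg_zero, h0, neg_zero]

theorem DD_open : IsOpen DD := by
  have c1 := Complex.continuous_re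
  have c2 := Complex.continuous_im
  exact isOpen_lt (by fun_prop) continuous_const

theorem wt_c1 (m : ℕ) (hm : 1 ≤ m) : ContDiffOn ℝ 1 (wt m) DD := by
  have e1 : ContDiff ℝ 1 (fun a : ℝ => H m (|a| - 1 / 2)) := by
    refine even_c1 (fun t => H m (t - 1 / 2)) (fun t => h m (t - 1 / 2)) ?_ ?_ ?_
    · intro t
      have := (H_deriv m (t - 1 / 2)).comp t ((hasDerivAt_id t).sub_const (1 / 2))
      rw [mul_one] at this
      exact this
    · exact (h_cont m).comp (by fun_prop)
    · show h m (0 - 1 / 2) = 0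
      rw [zero_sub]
      exact (h_end m hm).1
  have e2 : ContDiff ℝ 1 (fun a : ℝ => H m (1 / 2 - |a|)) := by
    refine even_c1 (fun t => H m (1 / 2 - t)) (fun t => -h m (1 / 2 - t)) ?_ ?_ ?_
    · intro t
      have := (H_deriv m (1 / 2 - t)).comp t ((hasDerivAt_id t).const_sub (1 / 2))
      rw [mul_neg_one] at this
      exact this
    · exact ((h_cont m).comp (by fun_prop)).neg
    · show -h m (1 / 2 - 0) = 0
      rw [sub_zero, (h_end m hm).2, neg_zero]
  have r1 : ContDiff ℝ 1 (fun x : ℂ => x.re) := Complex.reCLM.contDiff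
  have r2 : ContDiff ℝ 1 (fun x : ℂ => x.im) := Complex.imCLM.contDiff
  have e3 : ContDiff ℝ 1 (fun x : ℂ => (H m (1 / 2 - |x.im|) - H m (|x.re| - 1 / 2)) / NN m) :=
    ((e2.comp r2).sub (e1.comp r1)).div_const _
  exact e3.contDiffOn.congr fun x hx => wt_in m hx

theorem wt_int (m : ℕ) : Integrable (wt m) := by
  refine (wt_cont m).integrable_of_hasCompactSupport ?_
  refine HasCompactSupport.of_support_subset_isCompact (isCompact_closedBall (0 : ℂ) 1) ?_
  intro x hx
  rw [Function.mem_support] at hx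
  have hD : x ∈ DD := by
    by_contra hD
    exact hx (wt_out m hD)
  have h1 : |x.re| + |x.im| < 1 := hD
  rw [mem_closedBall_zero_iff]
  exact (Complex.norm_le_abs_re_add_abs_im x).trans h1.le

theorem wt_swap (m : ℕ) (a b : ℝ) : wt m ⟨b, a⟩ = wt m ⟨a, b⟩ := by
  by_cases hx : (⟨a, b⟩ : ℂ) ∈ DD
  · have h1 : |a| + |b| < 1 := hx
    have hx' : (⟨b, a⟩ : ℂ) ∈ DD := by
      show |b| + |a| < 1
      linarith
    rw [wt_in m hx, wt_in m hx']
    show (H m (1 / 2 - |a|) - H m (|b| - 1 / 2)) / NN m =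
      (H m (1 / 2 - |b|) - H m (|a| - 1 / 2)) / NN m
    have e1 := H_odd m (|a| - 1 / 2)
    have e2 := H_odd m (|b| - 1 / 2)
    rw [neg_sub] at e1 e2
    rw [e1, e2]
    ring
  · have hx' : (⟨b, a⟩ : ℂ) ∉ DD := by
      intro h2
      apply hx
      have h1 : |b| + |a| < 1 := h2
      show |a| + |b| < 1
      linarith
    rw [wt_out m hx, wt_out m hx']

theorem wt_mono (m : ℕ) (a a' b : ℝ) (ha : 0 ≤ a) (haa : a ≤ a') : wt m ⟨a', b⟩ ≤ wt m ⟨a, b⟩ := by
  have ea : |a| = a := abs_of_nonneg ha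
  have ea' : |a'| = a' := abs_of_nonneg (ha.trans haa)
  by_cases hx' : (⟨a', b⟩ : ℂ) ∈ DD
  · have h1 : |a'| + |b| < 1 := hx'
    have hx : (⟨a, b⟩ : ℂ) ∈ DD := by
      show |a| + |b| < 1
      linarith
    rw [wt_in m hx, wt_in m hx']
    refine div_le_div_of_nonneg_right ?_ (NN_pos m).le
    show H m (1 / 2 - |b|) - H m (|a'| - 1 / 2) ≤ H m (1 / 2 - |b|) - H m (|a| - 1 / 2)
    have := abs_nonneg b
    have b2 := (H_strict m).monotoneOn (a := |a| - 1 / 2) (b := |a'| - 1 / 2)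
      ⟨by linarith, by linarith⟩ ⟨by linarith, by linarith⟩ (by linarith)
    linarith
  · rw [wt_out m hx']
    exact wt_nonneg m _

end C0

open C0

theorem c0 : S_C0 := by
  intro m hm
  refine ⟨NN_pos m, wt_cont m, wt_nonneg m, wt_le m, ?_, wt_c1 m hm, wt_int m, wt_swap m, ?_, ?_,
    wt_mono m, ?_⟩
  · ext x
    constructor
    · intro h1
      replace h1 : 0 < wt m x := h1
      by_contra h2
      rw [wt_out m h2] at h1
      exact lt_irrefl _ h1
    · exact wt_pos m
  · intro a b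
    unfold wt
    rw [abs_neg]
  · intro a b
    unfold wt
    rw [abs_neg]
  · intro x hx
    rw [wt_in m hx, int_eq]

end Pool.Agent.TH626.HU
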