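import Pool.Agent.TH703.HU.Stm

/-! Symmetries of the planar problem. -/

set_option autoImplicit false

open MeasureTheory Set Metric Filter Topology
open scoped ENNReal Real

namespace Pool.Agent.TH626.HU

open Pool.Agent.TH304.MI Pool.Agent.TH703.HU

namespace C12

theorem tr (L : ℂ →L[ℝ] ℂ) : (L 1).re + (L Complex.I).im = LinearMap.trace ℝ ℂ L.toLinearMap := by
  rw [LinearMap.trace_eq_matrix_trace ℝ Complex.basisOneI, Matrix.trace_fin_two]
  simp [LinearMap.toMatrix_apply]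

theorem dv2_conj (T : ℂ ≃ₗᵢ[ℝ] ℂ) (Y : ℂ → ℂ) (hY : ContDiff ℝ 1 Y) (x : ℂ) :
    dv2 (fun z => T (Y (T.symm z))) x = dv2 Y (T.symm x) := by
  have hd : DifferentiableAt ℝ Y (T.symm x) := (hY.differentiable (by norm_num)).differentiableAt
  have h1 : HasFDerivAt (fun z => T (Y (T.symm z)))
      ((T.toContinuousLinearEquiv : ℂ →L[ℝ] ℂ).comp ((fderiv ℝ Y (T.symm x)).comp
        (T.symm.toContinuousLinearEquiv : ℂ →L[ℝ] ℂ))) x := by
    have e1 : HasFDerivAt (fun z => T.symm z) (T.symm.toContinuousLinearEquiv : ℂ →L[ℝ] ℂ) x :=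
      T.symm.toContinuousLinearEquiv.hasFDerivAt
    have e2 := hd.hasFDerivAt.comp x e1
    exact (T.toContinuousLinearEquiv.hasFDerivAt (x := Y (T.symm x))).comp x e2
  unfold dv2
  rw [h1.fderiv, tr, tr]
  have h2 : (((T.toContinuousLinearEquiv : ℂ →L[ℝ] ℂ).comp ((fderiv ℝ Y (T.symm x)).comp
        (T.symm.toContinuousLinearEquiv : ℂ →L[ℝ] ℂ))) : ℂ →L[ℝ] ℂ).toLinearMap =
      T.toLinearEquiv.conj (fderiv ℝ Y (T.symm x)).toLinearMap := by
    ext; rfl
  rw [h2, LinearMap.trace_conj']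

theorem mp (T : ℂ ≃ₗᵢ[ℝ] ℂ) : MeasurePreserving T volume volume := T.measurePreserving

theorem int_pre (T : ℂ ≃ₗᵢ[ℝ] ℂ) (f : ℂ → ℝ) (A : Set ℂ) :
    ∫ x in T ⁻¹' A, f (T x) = ∫ x in A, f x :=
  (mp T).setIntegral_preimage_emb T.toHomeomorph.measurableEmbedding f A

theorem mu_pre (w : ℂ → ℝ) (T : ℂ ≃ₗᵢ[ℝ] ℂ) (hw : ∀ x, w (T x) = w x) (A : Set ℂ) :
    mu w (T ⁻¹' A) = mu w A := by
  unfold mu
  rw [← int_pre T w A]
  simp only [hw]

theorem pw_pre (w : ℂ → ℝ) (T : ℂ ≃ₗᵢ[ℝ] ℂ) (hw : ∀ x, w (T x) = w x) (A : Set ℂ) (C : ℝ)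
    (h : PW w A C) : PW w (T ⁻¹' A) C := by
  intro Y hY
  have hw' : ∀ x, w (T.symm x) = w x := fun x => by
    rw [← hw (T.symm x), T.apply_symm_apply]
  have hY' : TW w (fun z => T (Y (T.symm z))) := by
    refine ⟨?_, ?_, ?_, ?_⟩
    · exact T.contDiff.comp (hY.cd.comp T.symm.contDiff)
    · exact (hY.cs.comp_homeomorph T.symm.toHomeomorph).comp_left (g := T) (map_zero T)
    · have h1 : tsupport (fun z => T (Y (T.symm z))) ⊆ T.symm ⁻¹' (tsupport Y) := by
        refine closure_minimal ?_ ((isClosed_tsupport Y).preimage T.symm.continuous)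
        intro z hz
        rw [Function.mem_support] at hz
        refine subset_closure ?_
        rw [Function.mem_support]
        intro h0
        exact hz (by rw [h0, map_zero])
      intro z hz
      have h2 := hY.sub (h1 hz)
      show 0 < w z
      rw [← hw' z]
      exact h2
    · intro x
      show ‖T (Y (T.symm x))‖ ≤ w x
      rw [T.norm_map, ← hw' x]
      exact hY.le _
  have h1 := h _ hY'
  have h2 : ∫ x in A, dv2 (fun z => T (Y (T.symm z))) x = ∫ x in T ⁻¹' A, dv2 Y x := by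
    rw [← int_pre T _ A]
    refine integral_congr_ae (Eventually.of_forall fun x => ?_)
    show dv2 (fun z => T (Y (T.symm z))) (T x) = dv2 Y x
    rw [dv2_conj T Y hY.cd, T.symm_apply_apply]
  rw [← h2]
  exact h1

end C12

open C12

theorem c12 : S_C12 := by
  intro w T hw Λ v A hA
  have hw' : ∀ x, w (T.symm x) = w x := fun x => by
    rw [← hw (T.symm x), T.apply_symm_apply]
  refine ⟨hA.meas.preimage T.continuous.measurable, ?_, ?_⟩
  · rw [mu_pre w T hw]
    exact hA.le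
  · intro F C hF hFv hP
    have h1 := hA.min (T.symm ⁻¹' F) C (hF.preimage T.symm.continuous.measurable)
      (by rw [mu_pre w T.symm hw']; exact hFv) (pw_pre w T.symm hw' F C hP)
    rw [mu_pre w T.symm hw'] at h1
    rw [mu_pre w T hw]
    exact pw_pre w T hw A _ h1

end Pool.Agent.TH626.HU
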